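import Pool.Agent.T6.H91.HP.PtMaps

/-!
# MP_b15c9e_ag: every complex point, 100% of the endomorphisms of the plane with an invariant line

Definitions from the library: `DMLAt F α` (for every set `S` of homogeneous complex polynomials the set
of the `n` such that all members of `S` vanish at the `n`-th iterate of `α` under `F` is a finite union
of arithmetic progressions), `Mono n e` (exponent vectors of total degree `e`), `form c` (the form with
the coefficients `c`).

An endomorphism of degree `d` of the plane with the invariant line `L = {x_0 = 0}` is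

  `[x_0 (a + x_0 B_0) : u + x_0 B_1 : v + x_0 B_2]`,

where `a`, `u`, `v` are binary forms in `x_1`, `x_2` of the degrees `d - 1`, `d`, `d` and the `B_i` are
forms in `x_0`, `x_1`, `x_2` of the degrees `d - 2`, `d - 1`, `d - 1`. (The line is not totally
invariant if `a ≠ 0`; the maps with a totally invariant line are the regular polynomial endomorphisms
of the affine plane.)

**The result.** For every `d ≥ 2` and EVERY point `α` of `ℙ^2(ℂ)` (algebraic or not) 100% of the
integral maps of degree `d` with the invariant line `L` (the box of all coefficients of `a`, `u`, `v`,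
`B_0`, `B_1`, `B_2`) have the Dynamical Mordell-Lang property at `α`, for all closed subsets of the
plane over `ℂ`. Here the degree is fixed and only the coefficients tend to infinity.

The proof. One reduces `α` at the primes `p` of degree one of a number field which embed `ℚ(α)` into
`ℚ_p`; the sum of their reciprocals diverges (Dedekind zeta function). For a positive proportion of the
binary data modulo `p` the Jacobian determinant has no zero on the line over `F_p` (second moment
computation, using that for `d ≥ 3` the values of the Jacobian of `(u, v)` at two points are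
independent for fixed `u` without zeros; for `d = 2` the second iterate and the involution attached to
a quadratic form are used), so that all orbits on `L` modulo `p` are finally étale. The image of the
reduction of `α` is on `L` with the probability `1 / p`, as `B_0` varies. So the orbit of `α` is finally
étale modulo `p` with a probability at least `c / p`; the events for different `p` are independent, and
as the sum of the `c / p` diverges almost every map is good at some `p`; then `p`-adic interpolation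
applies.
-/

set_option autoImplicit false

open MvPolynomial Filter Topology Pool.Agent.H936R2 Pool.Agent.H927R2.RD

namespace Pool.Agent.Results.MP_b15c9e_ag.AlmostAllInvariantLineMaps

/-- The coefficients of three binary forms of the degrees `d - 1`, `d`, `d`. -/
abbrev Data (d : ℕ) : Type := (Fin d → ℤ) × (Fin (d + 1) → ℤ) × (Fin (d + 1) → ℤ)

/-- The coefficients are at most `H`. -/
def Bounded {d : ℕ} (H : ℕ) (w : Data d) : Prop :=
  (∀ i, |w.1 i| ≤ (H : ℤ)) ∧ (∀ i, |w.2.1 i| ≤ (H : ℤ)) ∧ ∀ i, |w.2.2 i| ≤ (H : ℤ)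

/-- The system `(x_0 (a + x_0 B_0), u + x_0 B_1, v + x_0 B_2)`, where `a`, `u`, `v` are the binary
forms in `x_1`, `x_2` with the given coefficients. -/
noncomputable def lineSystem (d : ℕ) (w : Data d)
    (B : Fin (2 + 1) → MvPolynomial (Fin (2 + 1)) ℤ) :
    Fin (2 + 1) → MvPolynomial (Fin (2 + 1)) ℤ :=
  ![X 0 * ((∑ i : Fin d, C (w.1 i) * (X 1 ^ (d - 1 - (i : ℕ)) * X 2 ^ (i : ℕ))) + X 0 * B 0),
    (∑ i : Fin (d + 1), C (w.2.1 i) * (X 1 ^ (d - (i : ℕ)) * X 2 ^ (i : ℕ))) + X 0 * B 1,
    (∑ i : Fin (d + 1), C (w.2.2 i) * (X 1 ^ (d - (i : ℕ)) * X 2 ^ (i : ℕ))) + X 0 * B 2]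

/-- The coefficients of three forms in `x_0`, `x_1`, `x_2` of the degrees `d - 2`, `d - 1`, `d - 1`
(`Mono 3 e` is the set of the exponent vectors of total degree `e`). -/
abbrev Rest (d : ℕ) : Type :=
  (Mono 3 (d - 2) → ℤ) × (Mono 3 (d - 1) → ℤ) × (Mono 3 (d - 1) → ℤ)

/-- The coefficients are at most `H`. -/
def BoundedRest {d : ℕ} (H : ℕ) (w : Rest d) : Prop :=
  (∀ i, |w.1 i| ≤ (H : ℤ)) ∧ (∀ i, |w.2.1 i| ≤ (H : ℤ)) ∧ ∀ i, |w.2.2 i| ≤ (H : ℤ)

/-- The three forms with the given coefficients. -/
noncomputable def restForms {d : ℕ} (w : Rest d) : Fin (2 + 1) → MvPolynomial (Fin (2 + 1)) ℤ :=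
  ![form w.1, form w.2.1, form w.2.2]

open Pool.Agent.T6.H91.HP in
theorem transfer_two {m : ℕ} (Q : Data (m + 1) → Rest (m + 1) → Prop) (H : ℕ) :
    Nat.card {w : Data (m + 1) × Rest (m + 1) // (Bounded H w.1 ∧ BoundedRest H w.2) ∧
        ¬ Q w.1 w.2} =
      Nat.card {x : Jx m → ℤ // (∀ i, |x i| ≤ (H : ℤ)) ∧ ¬ Q
        (fun i => x (Sum.inl (Sum.inl i)), fun i => x (Sum.inl (Sum.inr (Sum.inl i))),
          fun i => x (Sum.inl (Sum.inr (Sum.inr i))))
        (fun i => x (Sum.inr (Sum.inl i)), fun i => x (Sum.inr (Sum.inr (Sum.inl i))),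
          fun i => x (Sum.inr (Sum.inr (Sum.inr i))))} := by
  refine Nat.card_congr ⟨fun w => ⟨Sum.elim (Sum.elim w.1.1.1 (Sum.elim w.1.1.2.1 w.1.1.2.2))
      (Sum.elim w.1.2.1 (Sum.elim w.1.2.2.1 w.1.2.2.2)), ?_, w.2.2⟩,
    fun x => ⟨((fun i => x.1 (Sum.inl (Sum.inl i)), fun i => x.1 (Sum.inl (Sum.inr (Sum.inl i))),
          fun i => x.1 (Sum.inl (Sum.inr (Sum.inr i)))),
        (fun i => x.1 (Sum.inr (Sum.inl i)), fun i => x.1 (Sum.inr (Sum.inr (Sum.inl i))),
          fun i => x.1 (Sum.inr (Sum.inr (Sum.inr i))))),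
        ⟨⟨fun i => x.2.1 _, fun i => x.2.1 _, fun i => x.2.1 _⟩,
          ⟨fun i => x.2.1 _, fun i => x.2.1 _, fun i => x.2.1 _⟩⟩,
        x.2.2⟩, fun w => rfl, fun w => ?_⟩
  · rintro ((i | i | i) | (i | i | i))
    · exact w.2.1.1.1 i
    · exact w.2.1.1.2.1 i
    · exact w.2.1.1.2.2 i
    · exact w.2.1.2.1 i
    · exact w.2.1.2.2.1 i
    · exact w.2.1.2.2.2 i
  · apply Subtype.ext
    funext i
    rcases i with (i | i | i) | (i | i | i) <;> rfl

open Pool.Agent.T6.H91.HP in
theorem third (m : ℕ) (hm : 1 ≤ m) (α : Fin (2 + 1) → ℂ) (hα : α ≠ 0) :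
    Tendsto (fun H : ℕ => (Nat.card {w : Data (m + 1) × Rest (m + 1) //
        (Bounded H w.1 ∧ BoundedRest H w.2) ∧
        ¬ DMLAt (lineSystem (m + 1) w.1 (restForms w.2)) α} : ℝ) /
      (Nat.card {w : Data (m + 1) × Rest (m + 1) // Bounded H w.1 ∧ BoundedRest H w.2} : ℝ))
      atTop (𝓝 0) := by
  have htot : ∀ H : ℕ, (Nat.card {w : Data (m + 1) × Rest (m + 1) //
      Bounded H w.1 ∧ BoundedRest H w.2} : ℝ) = (2 * H + 1 : ℝ) ^ Fintype.card (Jx m) := by
    intro H
    have h1 := transfer_two (m := m) (fun _ _ => False) H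
    have h2 : Nat.card {w : Data (m + 1) × Rest (m + 1) // Bounded H w.1 ∧ BoundedRest H w.2} =
        Nat.card {w : Data (m + 1) × Rest (m + 1) // (Bounded H w.1 ∧ BoundedRest H w.2) ∧
          ¬ False} :=
      Nat.card_congr (Equiv.subtypeEquivRight fun w => by simp)
    have h3 := card_box_vectors (Jx m) H
    have h4 : Nat.card {w : Jx m → ℤ // (∀ i, |w i| ≤ (H : ℤ)) ∧ ¬ False} =
        Nat.card {w : Jx m → ℤ // ∀ i, |w i| ≤ (H : ℤ)} :=
      Nat.card_congr (Equiv.subtypeEquivRight fun w => by simp)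
    rw [h2, h1, h4, h3]
    push_cast
    ring
  refine (point_density hm α hα).congr fun H => ?_
  rw [htot H, transfer_two (m := m)
    (fun w b => DMLAt (lineSystem (m + 1) w (restForms b)) α) H]
  rfl

/-- **Every complex point: Dynamical Mordell-Lang for 100% of the endomorphisms of degree `d` of the
plane with an invariant line.** -/
theorem result : ∀ d : ℕ, 2 ≤ d → ∀ α : Fin (2 + 1) → ℂ, α ≠ 0 →
    Tendsto (fun H : ℕ => (Nat.card {w : Data d × Rest d //
        (Bounded H w.1 ∧ BoundedRest H w.2) ∧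
        ¬ DMLAt (lineSystem d w.1 (restForms w.2)) α} : ℝ) /
      (Nat.card {w : Data d × Rest d // Bounded H w.1 ∧ BoundedRest H w.2} : ℝ))
      atTop (𝓝 0) := by
  intro d hd α hα
  obtain ⟨m, rfl⟩ : ∃ m, d = m + 1 := ⟨d - 1, by omega⟩
  exact third m (by omega) α hα

end Pool.Agent.Results.MP_b15c9e_ag.AlmostAllInvariantLineMaps
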