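import Pool.Agent.T6.H91.HP.Two

/-!
# MP_b15c9e_ag: endomorphisms of the plane with an invariant line: Dynamical Mordell-Lang for 100% of
the rational points

Definitions from the library: `DMLAt F α` (for every set `S` of homogeneous complex polynomials the set
of the `n` such that all members of `S` vanish at the `n`-th iterate of `α` under `F` is a finite union
of arithmetic progressions), `cmap F` (the self-map of `ℂ^3` given by the integral forms `F`).

**First part: one prime suffices.** Let `Φ = [F_0 : F_1 : F_2]`, forms of degree `d ≥ 2` over `ℤ`, map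
the line `L = {x_0 = 0}` into itself after `l ≥ 1` steps, and suppose that for ONE prime `q` and one
`M` the Jacobian determinant of `F` does not vanish at the iterates `F^n(z)`, `M ≤ n < M + l`, of the
points `z` of `L` over `ℤ / q` (so no point of `L` over `ℤ / q` is on its way to a critical cycle).
Then

* for 100% of the integers `a` the point `[a : b : c]` has the Dynamical Mordell-Lang property, for
  ALL integers `b`, `c` with `gcd(a, b, c) = 1` and all closed subsets `V` of the plane (over `ℂ`);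
* 100% of the points of `ℙ^2(ℚ)` have the Dynamical Mordell-Lang property.

**Second part: 100% of the maps, 100% of the rational points.** An endomorphism of degree `d` with the
invariant line `L` is

  `[x_0 (a + x_0 B_0) : u + x_0 B_1 : v + x_0 B_2]`,

where `a`, `u`, `v` are binary forms in `x_1`, `x_2` of the degrees `d - 1`, `d`, `d` and the `B_i` are
forms in `x_0`, `x_1`, `x_2` of the degrees `d - 2`, `d - 1`, `d - 1`. For every `d ≥ 2` and for 100% of
the integral `(a, u, v)` the conclusions of the first part hold for ALL `B_0`, `B_1`, `B_2`. In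
particular 100% of the integral maps of degree `d` with the invariant line `L` have the Dynamical
Mordell-Lang property at 100% of the rational points. (The line is not totally invariant if `a ≠ 0`;
the maps with a totally invariant line are the regular polynomial endomorphisms of the affine plane.)

The proof. The product of the Jacobian determinants in the first part is a binary form `P` over `ℤ`
without zeros on the line over `ℤ / q`. A Frobenius element at `q` has no fixed point on the zeros of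
`P`; so by Chebotarev's theorem the sum of `1 / p` over the primes `p` modulo which `P` has no zero
on the line diverges. Modulo such `p` all orbits on the line are finally étale. If such a `p` divides
`a` then the orbit of `[a : b : c]` is finally étale modulo `p`, and `p`-adic interpolation applies. For
the second part one has to count the forms over `F_p` without zeros on the line: a second moment
computation, using that for `d ≥ 3` the values of the Jacobian of `(u, v)` at two points are
independent for fixed `u` without zeros (and the involution attached to a quadratic form for `d = 2`,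
where one takes `M = 1`).
-/

set_option autoImplicit false

open MvPolynomial Filter Topology Pool.Agent.H936R2 Pool.Agent.H927R2.RD

namespace Pool.Agent.Results.MP_b15c9e_ag.AlmostAllRationalPoints

/-- The self-map of `(ℤ / q)^3` given by integral forms. -/
noncomputable def mapMod (q : ℕ) (F : Fin (2 + 1) → MvPolynomial (Fin (2 + 1)) ℤ)
    (z : Fin (2 + 1) → ZMod q) : Fin (2 + 1) → ZMod q :=
  fun i => eval z (map (Int.castRingHom (ZMod q)) (F i))

/-- The Jacobian determinant modulo `q`. -/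
noncomputable def jacMod (q : ℕ) (F : Fin (2 + 1) → MvPolynomial (Fin (2 + 1)) ℤ)
    (z : Fin (2 + 1) → ZMod q) : ZMod q :=
  (Matrix.of fun i j => eval z (pderiv j (map (Int.castRingHom (ZMod q)) (F i)))).det

/-- For 100% of the integers `a` all the points `[a : b : c]`, `gcd(a, b, c) = 1`, have the Dynamical
Mordell-Lang property. -/
def AllPointsForAlmostAll (F : Fin (2 + 1) → MvPolynomial (Fin (2 + 1)) ℤ) : Prop :=
  Tendsto (fun B : ℕ => (Nat.card {a : ℤ // |a| ≤ (B : ℤ) ∧ ∃ b c : ℤ,
    Int.gcd a (Int.gcd b c) = 1 ∧ ¬ DMLAt F ![(a : ℂ), (b : ℂ), (c : ℂ)]} : ℝ) /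
      (2 * B + 1 : ℝ)) atTop (𝓝 0)

/-- 100% of the integral points have the Dynamical Mordell-Lang property. -/
def AlmostAllPoints (F : Fin (2 + 1) → MvPolynomial (Fin (2 + 1)) ℤ) : Prop :=
  Tendsto (fun B : ℕ => (Nat.card {α : Fin (2 + 1) → ℤ // (∀ i, |α i| ≤ (B : ℤ)) ∧
    ¬ DMLAt F (fun i => (α i : ℂ))} : ℝ) / (2 * B + 1 : ℝ) ^ 3) atTop (𝓝 0)

/-- The coefficients of three binary forms of the degrees `d - 1`, `d`, `d`. -/
abbrev Data (d : ℕ) : Type := (Fin d → ℤ) × (Fin (d + 1) → ℤ) × (Fin (d + 1) → ℤ)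

/-- The coefficients are at most `H`. -/
def Bounded {d : ℕ} (H : ℕ) (w : Data d) : Prop :=
  (∀ i, |w.1 i| ≤ (H : ℤ)) ∧ (∀ i, |w.2.1 i| ≤ (H : ℤ)) ∧ ∀ i, |w.2.2 i| ≤ (H : ℤ)

/-- The system `(x_0 (a + x_0 B_0), u + x_0 B_1, v + x_0 B_2)`, where `a`, `u`, `v` are the binary
forms in `x_1`, `x_2` with the given coefficients. -/
noncomputable def lineSystem (d : ℕ) (w : Data d)
    (B : Fin (2 + 1) → MvPolynomial (Fin (2 + 1)) ℤ) :
    Fin (2 + 1) → MvPolynomial (Fin (2 + 1)) ℤ :=
  ![X 0 * ((∑ i : Fin d, C (w.1 i) * (X 1 ^ (d - 1 - (i : ℕ)) * X 2 ^ (i : ℕ))) + X 0 * B 0),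
    (∑ i : Fin (d + 1), C (w.2.1 i) * (X 1 ^ (d - (i : ℕ)) * X 2 ^ (i : ℕ))) + X 0 * B 1,
    (∑ i : Fin (d + 1), C (w.2.2 i) * (X 1 ^ (d - (i : ℕ)) * X 2 ^ (i : ℕ))) + X 0 * B 2]

open Pool.Agent.T6.H91.HP in
theorem first (d l M q : ℕ) (F : Fin (2 + 1) → MvPolynomial (Fin (2 + 1)) ℤ) (hd : 2 ≤ d)
    (hF : ∀ i, (F i).IsHomogeneous d) (hl : 1 ≤ l)
    (hline : ∀ z : Fin (2 + 1) → ℂ, z 0 = 0 → ((cmap F)^[l] z) 0 = 0) (hq : q ∈ LP F M l) :
    AllPointsForAlmostAll F ∧ AlmostAllPoints F :=
  ⟨cons_uniform hd hF M l hl hline q hq, cons_points hd hF M l hl hline q hq⟩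

theorem card_mono {ι : Type} [Fintype ι] (P Q : (ι → ℤ) → Prop) (h : ∀ v, P v → Q v) (B : ℕ) :
    Nat.card {v : ι → ℤ // (∀ i, |v i| ≤ (B : ℤ)) ∧ P v} ≤
      Nat.card {v : ι → ℤ // (∀ i, |v i| ≤ (B : ℤ)) ∧ Q v} := by
  have hfin := Pool.Agent.T6.H91.HP.finite_box B Q
  exact Nat.card_le_card_of_injective
    (fun v : {v : ι → ℤ // (∀ i, |v i| ≤ (B : ℤ)) ∧ P v} =>
      (⟨v.1, v.2.1, h _ v.2.2⟩ : {v : ι → ℤ // (∀ i, |v i| ≤ (B : ℤ)) ∧ Q v}))
    fun v w hvw => Subtype.ext (congrArg (fun z => z.1) hvw)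

open Pool.Agent.T6.H91.HP in
theorem transfer {m : ℕ} (Q : Data (m + 1) → Prop) (H : ℕ) :
    Nat.card {w : Data (m + 1) // Bounded H w ∧ ¬ Q w} =
      Nat.card {w : Ix m → ℤ // (∀ i, |w i| ≤ (H : ℤ)) ∧ ¬ Q (fun i => w (Sum.inl i),
        fun i => w (Sum.inr (Sum.inl i)), fun i => w (Sum.inr (Sum.inr i)))} := by
  refine Nat.card_congr ⟨fun w => ⟨Sum.elim w.1.1 (Sum.elim w.1.2.1 w.1.2.2), ?_, w.2.2⟩,
    fun w => ⟨(fun i => w.1 (Sum.inl i), fun i => w.1 (Sum.inr (Sum.inl i)),
      fun i => w.1 (Sum.inr (Sum.inr i))), ⟨fun i => w.2.1 _, fun i => w.2.1 _, fun i => w.2.1 _⟩,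
        w.2.2⟩, fun w => rfl, fun w => ?_⟩
  · rintro (i | i | i)
    · exact w.2.1.1 i
    · exact w.2.1.2.1 i
    · exact w.2.1.2.2 i
  · apply Subtype.ext
    funext i
    rcases i with i | i | i <;> rfl

open Pool.Agent.T6.H91.HP in
theorem lineSystem_eq {m : ℕ} (w : Data (m + 1)) (B : Fin (2 + 1) → MvPolynomial (Fin (2 + 1)) ℤ) :
    lineSystem (m + 1) w B = lsys m w.1 w.2.1 w.2.2 B := rfl

/-- **Dynamical Mordell-Lang for 100% of the rational points and for 100% of the endomorphisms of the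
plane with an invariant line.** -/
theorem result :
    (∀ (d l M q : ℕ) (F : Fin (2 + 1) → MvPolynomial (Fin (2 + 1)) ℤ), 2 ≤ d →
      (∀ i, (F i).IsHomogeneous d) → 1 ≤ l →
      (∀ z : Fin (2 + 1) → ℂ, z 0 = 0 → ((cmap F)^[l] z) 0 = 0) → q.Prime →
      (∀ z : Fin (2 + 1) → ZMod q, z ≠ 0 → z 0 = 0 → ∀ n, M ≤ n → n < M + l →
        jacMod q F ((mapMod q F)^[n] z) ≠ 0) →
      AllPointsForAlmostAll F ∧ AlmostAllPoints F) ∧
    (∀ d : ℕ, 2 ≤ d →
      Tendsto (fun H : ℕ => (Nat.card {w : Data d // Bounded H w ∧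
        ¬ ∀ B : Fin (2 + 1) → MvPolynomial (Fin (2 + 1)) ℤ, (B 0).IsHomogeneous (d - 2) →
          (B 1).IsHomogeneous (d - 1) → (B 2).IsHomogeneous (d - 1) →
          AllPointsForAlmostAll (lineSystem d w B) ∧ AlmostAllPoints (lineSystem d w B)} : ℝ) /
        (Nat.card {w : Data d // Bounded H w} : ℝ)) atTop (𝓝 0)) := by
  constructor
  · intro d l M q F hd hF hl hline hq h
    exact first d l M q F hd hF hl hline ⟨hq, h⟩
  · intro d hd
    obtain ⟨m, rfl⟩ : ∃ m, d = m + 1 := ⟨d - 1, by omega⟩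
    have hm : 1 ≤ m := by omega
    -- the total number
    have htot : ∀ H : ℕ, (Nat.card {w : Data (m + 1) // Bounded H w} : ℝ) =
        (2 * H + 1 : ℝ) ^ Fintype.card (Pool.Agent.T6.H91.HP.Ix m) := by
      intro H
      have h1 := transfer (m := m) (fun _ => False) H
      have h2 : Nat.card {w : Data (m + 1) // Bounded H w} =
          Nat.card {w : Data (m + 1) // Bounded H w ∧ ¬ False} :=
        Nat.card_congr (Equiv.subtypeEquivRight fun w => by simp)
      have h3 := card_box_vectors (Pool.Agent.T6.H91.HP.Ix m) H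
      have h4 : Nat.card {w : Pool.Agent.T6.H91.HP.Ix m → ℤ // (∀ i, |w i| ≤ (H : ℤ)) ∧ ¬ False} =
          Nat.card {w : Pool.Agent.T6.H91.HP.Ix m → ℤ // ∀ i, |w i| ≤ (H : ℤ)} :=
        Nat.card_congr (Equiv.subtypeEquivRight fun w => by simp)
      rw [h2, h1, h4, h3]
      push_cast
      ring
    -- the exceptions
    have hmain : Tendsto (fun H : ℕ => (Nat.card {w : Pool.Agent.T6.H91.HP.Ix m → ℤ //
        (∀ i, |w i| ≤ (H : ℤ)) ∧
        ¬ ∀ B : Fin (2 + 1) → MvPolynomial (Fin (2 + 1)) ℤ, (B 0).IsHomogeneous (m - 1) →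
          (B 1).IsHomogeneous m → (B 2).IsHomogeneous m →
          ∃ M p, p ∈ Pool.Agent.T6.H91.HP.LP (Pool.Agent.T6.H91.HP.lsys m
            (fun i => w (Sum.inl i)) (fun i => w (Sum.inr (Sum.inl i)))
            (fun i => w (Sum.inr (Sum.inr i))) B) M 1} : ℝ) /
        (2 * H + 1 : ℝ) ^ Fintype.card (Pool.Agent.T6.H91.HP.Ix m)) atTop (𝓝 0) := by
      rcases Nat.lt_or_ge m 2 with h | h
      · have hm1 : m = 1 := by omega
        subst hm1
        refine squeeze_zero (fun H => by positivity) (fun H => ?_)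
          Pool.Agent.T6.H91.HP.maps_density_two
        apply div_le_div_of_nonneg_right _ (by positivity)
        refine Nat.cast_le.2 (card_mono _ _ (fun w h1 h2 => h1 fun B _ _ _ => ?_) H)
        exact ⟨1, h2 B⟩
      · refine squeeze_zero (fun H => by positivity) (fun H => ?_)
          (Pool.Agent.T6.H91.HP.maps_density h)
        apply div_le_div_of_nonneg_right _ (by positivity)
        refine Nat.cast_le.2 (card_mono _ _ (fun w h1 h2 => h1 fun B e0 e1 e2 => ?_) H)
        exact ⟨0, h2 B e0 e1 e2⟩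
    refine squeeze_zero (fun H => by positivity) (fun H => ?_) hmain
    rw [htot H]
    apply div_le_div_of_nonneg_right _ (by positivity)
    rw [transfer]
    refine Nat.cast_le.2 (card_mono _ _ (fun w h1 h2 => h1 fun B h0 h1 h3 => ?_) H)
    have e0 : m + 1 - 2 = m - 1 := by omega
    have e1 : m + 1 - 1 = m := by omega
    rw [e0] at h0
    rw [e1] at h1 h3
    obtain ⟨M, p, hp⟩ := h2 B h0 h1 h3
    exact first (m + 1) 1 M p _ (by omega) (Pool.Agent.T6.H91.HP.lsys_hom hm h0 h1 h3) le_rfl
      Pool.Agent.T6.H91.HP.lsys_line hp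

end Pool.Agent.Results.MP_b15c9e_ag.AlmostAllRationalPoints
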