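import Pool.Agent.T6.H91.DML.Iter

/-!
# MP_b15c9e_ag: Dynamical Mordell-Lang for endomorphisms with an invariant hypersurface along which
they are strictly critically finite

Let `Φ = [f_0 : … : f_N]` be an endomorphism of `ℙ^N` of degree `d ≥ 2` with algebraic coefficients,
and let `E = {g = 0}` be an invariant hypersurface, so `g ∘ f = g A` for a form `A` (the equation of
the residual divisor `Φ^*E - E`). We call `Φ` *strictly critically finite along `E`* if there are closed
sets `E ⊆ D_0, D_1, …, D_k = ∅` with `Φ(D_i) ⊆ D_i`, such that for all `i < k` some iterate of `Φ` maps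
all the points of `D_i` which are critical or zeros of `A` into `D_{i+1}`. Nothing is assumed about
the critical points outside `E`.

**First part.** Such an endomorphism has the Dynamical Mordell-Lang property: for all closed `V` and all
points `α` of `ℙ^N(ℂ)` the return set is a finite union of arithmetic progressions.

**Second part.** Let `Φ` be an endomorphism of `ℙ^2` of degree at least two with algebraic
coefficients, and let `L` be a periodic line, `Φ^l(L) ⊆ L`, such that all critical points of `Φ^l` on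
`L` are preperiodic and none of them is periodic. Then `Φ` has the Dynamical Mordell-Lang property.

**Third part.** An explicit family. Let `d ≥ 2`, let `ζ ≠ 1` be a `d`-th root of unity and let
`ℓ_i = x_1 - (1 - ζ) x_{i+1}` for `i = 1, …, M + 1`, with `x_{M+2} = x_1`. For arbitrary forms `a` of
degree `d - 2` and `b_1, …, b_{M+1}` of degree `d - 1` in `x_0, …, x_{M+1}` with algebraic coefficients
and arbitrary `i_1, …, i_{d-1}`, the map of `ℙ^{M+1}`

  `[x_0 (ℓ_{i_1} ⋯ ℓ_{i_{d-1}} + x_0 a) : ℓ_1^d + x_0 b_1 : … : ℓ_{M+1}^d + x_0 b_{M+1}]`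

has the Dynamical Mordell-Lang property, provided that the forms have no common zero (so that it is
an endomorphism; this holds for `a = x_0^{d-2}`, `b_i = 0`, hence for general `a` and `b_i`).

The proof. If the orbit of an algebraic point `α` which is not preperiodic met `E` only modulo finitely
many places then (product formula) all of the height of `Φ^n(α)` would come from the closeness to `E` at
these places; but outside `{A = 0}` the distance to `E` changes only by a bounded factor in each step,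
and the orbits in `E` visit `{A = 0}` a bounded number of times, while the heights grow
exponentially. So the orbit meets `E` modulo infinitely many places; modulo almost all of them the
cycle of its reduction lies in `E` and contains no critical point, since `Φ` is strictly critically
finite along `E` also modulo almost all places. Then `p`-adic interpolation applies. If `α` is not
algebraic, a suitable embedding of `ℂ` into the algebraic closure of `ℚ_p` moves `α` near to `E`.
-/

set_option autoImplicit false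

open MvPolynomial

namespace Pool.Agent.Results.MP_b15c9e_ag.InvariantHypersurface

/-- The self-map of `ℂ^{N+1}` given by `N + 1` polynomials. -/
noncomputable def coneMap {N : ℕ} (f : Fin (N + 1) → MvPolynomial (Fin (N + 1)) ℂ)
    (x : Fin (N + 1) → ℂ) : Fin (N + 1) → ℂ :=
  fun i => eval x (f i)

/-- The return set of the point `[z]` to the closed set of the common zeros of the members of `S`. -/
def returnSet {N : ℕ} (f : Fin (N + 1) → MvPolynomial (Fin (N + 1)) ℂ)
    (S : Set (MvPolynomial (Fin (N + 1)) ℂ)) (z : Fin (N + 1) → ℂ) : Set ℕ :=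
  {n | ∀ g ∈ S, eval ((coneMap f)^[n] z) g = 0}

/-- A finite union of arithmetic progressions `{a + k n}`, where `k = 0` is allowed. -/
def FiniteUnionAP (A : Set ℕ) : Prop :=
  ∃ T : Finset (ℕ × ℕ), A = {n : ℕ | ∃ q ∈ T, ∃ m : ℕ, n = q.1 * m + q.2}

/-- The Dynamical Mordell-Lang property: for all sets `S` of forms and all nonzero vectors `z`
the return set of `[z]` to the closed set given by `S` is a finite union of progressions. -/
def DynamicalMordellLang {N : ℕ} (f : Fin (N + 1) → MvPolynomial (Fin (N + 1)) ℂ) : Prop :=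
  ∀ S : Set (MvPolynomial (Fin (N + 1)) ℂ), (∀ g ∈ S, ∃ e : ℕ, g.IsHomogeneous e) →
    ∀ z : Fin (N + 1) → ℂ, z ≠ 0 → FiniteUnionAP (returnSet f S z)

/-- The forms `f_i` are homogeneous of degree `d` and their only common zero is `0`, so that they
define an endomorphism of projective space; their coefficients are algebraic numbers. -/
def IsAlgebraicEndomorphism {N : ℕ} (d : ℕ) (f : Fin (N + 1) → MvPolynomial (Fin (N + 1)) ℂ) :
    Prop :=
  (∀ i, (f i).IsHomogeneous d) ∧ (∀ i κ, IsAlgebraic ℚ ((f i).coeff κ)) ∧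
  ∀ x : Fin (N + 1) → ℂ, (∀ i, eval x (f i) = 0) → x = 0

/-- The closed subset of projective space given by a set of forms (as a set of nonzero vectors). -/
def zeroSet {N : ℕ} (S : Set (MvPolynomial (Fin (N + 1)) ℂ)) : Set (Fin (N + 1) → ℂ) :=
  {x | x ≠ 0 ∧ ∀ g ∈ S, eval x g = 0}

/-- The critical locus: the zeros of the Jacobian determinant. -/
def critical {N : ℕ} (f : Fin (N + 1) → MvPolynomial (Fin (N + 1)) ℂ) : Set (Fin (N + 1) → ℂ) :=
  {x | (Matrix.of fun i j => eval x (pderiv j (f i))).det = 0}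

/-- `f` is strictly critically finite along the invariant hypersurface `g = 0`, where
`g ∘ f = g A`. The closed sets are given by forms with algebraic coefficients. -/
def StrictlyCriticallyFiniteAlong {N : ℕ} (f : Fin (N + 1) → MvPolynomial (Fin (N + 1)) ℂ)
    (g A : MvPolynomial (Fin (N + 1)) ℂ) : Prop :=
  ∃ (k : ℕ) (D : ℕ → Set (MvPolynomial (Fin (N + 1)) ℂ)),
    (∀ i, ∀ q ∈ D i, (∃ e : ℕ, q.IsHomogeneous e) ∧ ∀ κ, IsAlgebraic ℚ (q.coeff κ)) ∧
    zeroSet {g} ⊆ zeroSet (D 0) ∧ zeroSet (D k) = ∅ ∧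
    (∀ i ≤ k, ∀ x ∈ zeroSet (D i), coneMap f x ∈ zeroSet (D i)) ∧
    ∀ i < k, ∃ m : ℕ, ∀ x ∈ zeroSet (D i), (x ∈ critical f ∨ eval x A = 0) →
      (coneMap f)^[m] x ∈ zeroSet (D (i + 1))

/-- The point `[z]` is preperiodic. -/
def Preperiodic {N : ℕ} (f : Fin (N + 1) → MvPolynomial (Fin (N + 1)) ℂ)
    (z : Fin (N + 1) → ℂ) : Prop :=
  ∃ n q : ℕ, 0 < q ∧ ∃ c : ℂ, c ≠ 0 ∧ (coneMap f)^[n + q] z = c • (coneMap f)^[n] z

/-- The point `[z]` is periodic. -/
def Periodic {N : ℕ} (f : Fin (N + 1) → MvPolynomial (Fin (N + 1)) ℂ)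
    (z : Fin (N + 1) → ℂ) : Prop :=
  ∃ q : ℕ, 0 < q ∧ ∃ c : ℂ, c ≠ 0 ∧ (coneMap f)^[q] z = c • z

/-- The linear form `ℓ_i`: `x_0 - (1 - ζ) x_{i+1}` in the `M + 1` variables `x_0, …, x_M`, with
`x_{M+1} = x_0`. -/
noncomputable def ell (M : ℕ) (ζ : ℂ) (i : Fin (M + 1)) : MvPolynomial (Fin (M + 1)) ℂ :=
  X 0 - C (1 - ζ) * X (i + 1)

/-- The forms `x_0 (ℓ_{φ(0)} ⋯ ℓ_{φ(d-2)} + x_0 a)` and `ℓ_i^d + x_0 b_i` in the variables
`x_0, …, x_{M+1}`, where the `ℓ_i` are taken in the variables `x_1, …, x_{M+1}`. -/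
noncomputable def family (M d : ℕ) (ζ : ℂ) (φ : Fin (d - 1) → Fin (M + 1))
    (a : MvPolynomial (Fin (M + 2)) ℂ) (b : Fin (M + 1) → MvPolynomial (Fin (M + 2)) ℂ) :
    Fin (M + 2) → MvPolynomial (Fin (M + 2)) ℂ :=
  Fin.cons (X 0 * (rename Fin.succ (∏ t, ell M ζ (φ t)) + X 0 * a))
    fun i => rename Fin.succ (ell M ζ i ^ d) + X 0 * b i

open Pool.Agent.T6.H91.DML Pool.Agent.R847.PC in
/-- **Dynamical Mordell-Lang for endomorphisms which are strictly critically finite along an
invariant hypersurface.** -/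
theorem result :
    (∀ (N d e : ℕ), 2 ≤ d → 1 ≤ e → ∀ f : Fin (N + 1) → MvPolynomial (Fin (N + 1)) ℂ,
      IsAlgebraicEndomorphism d f →
      ∀ g A : MvPolynomial (Fin (N + 1)) ℂ, g.IsHomogeneous e → A.IsHomogeneous (e * (d - 1)) →
      (∀ κ, IsAlgebraic ℚ (g.coeff κ)) → (∀ κ, IsAlgebraic ℚ (A.coeff κ)) →
      bind₁ f g = g * A → StrictlyCriticallyFiniteAlong f g A → DynamicalMordellLang f) ∧
    (∀ d : ℕ, 2 ≤ d → ∀ f : Fin (2 + 1) → MvPolynomial (Fin (2 + 1)) ℂ,
      IsAlgebraicEndomorphism d f →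
      ∀ c : Fin (2 + 1) → ℂ, c ≠ 0 → (∀ i, IsAlgebraic ℚ (c i)) → ∀ l : ℕ, 0 < l →
      (∀ z : Fin (2 + 1) → ℂ, ∑ i, c i * z i = 0 → ∑ i, c i * (coneMap f)^[l] z i = 0) →
      (∀ z : Fin (2 + 1) → ℂ, z ≠ 0 → ∑ i, c i * z i = 0 →
        (∃ i < l, (coneMap f)^[i] z ∈ critical f) → Preperiodic f z ∧ ¬ Periodic f z) →
      DynamicalMordellLang f) ∧
    (∀ (M d : ℕ), 2 ≤ d → ∀ ζ : ℂ, ζ ^ d = 1 → ζ ≠ 1 → ∀ φ : Fin (d - 1) → Fin (M + 1),
      IsAlgebraicEndomorphism d (N := M + 1) (family M d ζ φ (X 0 ^ (d - 2)) fun _ => 0) ∧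
      ∀ (a : MvPolynomial (Fin (M + 2)) ℂ) (b : Fin (M + 1) → MvPolynomial (Fin (M + 2)) ℂ),
        a.IsHomogeneous (d - 2) → (∀ i, (b i).IsHomogeneous (d - 1)) →
        IsAlgebraicEndomorphism d (N := M + 1) (family M d ζ φ a b) →
        (∀ κ, IsAlgebraic ℚ (a.coeff κ)) → (∀ i κ, IsAlgebraic ℚ ((b i).coeff κ)) →
        DynamicalMordellLang (N := M + 1) (family M d ζ φ a b)) := by
  have hcone : ∀ {N : ℕ} (f : Fin (N + 1) → MvPolynomial (Fin (N + 1)) ℂ),
      coneMap f = Pool.Agent.H936R2.pt f := fun f => rfl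
  refine ⟨?_, ?_, ?_⟩
  · intro N d e hd he f hf g A hg hA hga hAa hgA hC S hS z _
    obtain ⟨hf1, hf2, hf3⟩ := hf
    obtain ⟨k, D, hD, hD0, hDk, hinv, hcrit⟩ := hC
    have hC' : ChC f g A k D := by
      constructor
      · exact hgA
      · exact fun i _ P hP => (hD i P hP).2
      · intro w hw hgw
        have h1 : w ∈ zeroSet {g} := ⟨hw, fun q hq => by
          rw [Set.mem_singleton_iff.1 hq]
          exact hgw⟩
        exact (hD0 h1).2
      · exact fun i hi w hw h => (hinv i hi w ⟨hw, h⟩).2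
      · intro i hi
        obtain ⟨m, hm⟩ := hcrit i hi
        exact ⟨m, fun w hw h hj => (hm w ⟨hw, h⟩ hj).2⟩
      · intro w hw
        by_contra hno
        push Not at hno
        have h1 : w ∈ zeroSet (D k) := ⟨hw, hno⟩
        rw [hDk] at h1
        exact h1
    exact main hd he f hf1 hf2 hf3 g A hg hga hA hAa k D hC' z S hS
  · intro d hd f hf c hc hca l hl hinv hcrit S hS z _
    obtain ⟨hf1, hf2, hf3⟩ := hf
    exact plane_iter hd f hf1 hf2 hf3 c hc hca l hl hinv hcrit z S hS
  · intro M d hd ζ hζ hζ1 φ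
    refine ⟨⟨?_, ?_, ?_⟩, ?_⟩
    · intro i
      refine ext_hom (fs M d ζ) (fsA M ζ φ) (X 0 ^ (d - 2)) (fun _ => 0) hd ?_ ?_ ?_ ?_ i
      · exact fun i => fs_hom i
      · exact fsA_hom φ
      · have := (isHomogeneous_X ℂ (0 : Fin (M + 2))).pow (d - 2)
        rwa [one_mul] at this
      · exact fun _ => isHomogeneous_zero _ _ _
    · intro i
      refine ext_alg (fs M d ζ) (fsA M ζ φ) (X 0 ^ (d - 2)) (fun _ => 0) ?_ ?_ ?_ ?_ i
      · exact fun i => fs_alg (by omega) hζ i
      · exact fsA_alg (by omega) hζ φ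
      · exact (algCoeff_X (N := M + 1) 0).pow _
      · intro _ κ
        rw [coeff_zero]
        exact isAlgebraic_zero
    · exact fun x hx => ext_fs_ne hd hζ hζ1 φ x hx
    · intro a b ha hb hf haa hba S hS z _
      exact ext_fs hd hζ hζ1 φ a b ha hb haa hba hf.2.2 z S hS

end Pool.Agent.Results.MP_b15c9e_ag.InvariantHypersurface
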