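import Pool.Agent.T6.H91.DML.Line2

/-!
# MP_b15c9e_ag: return sets for endomorphisms with a periodic curve or hypersurface without critical
cycles

Let `Φ = [f_0 : … : f_N]` be an endomorphism of `ℙ^N` of degree `d ≥ 2` with algebraic coefficients.

**First part.** Let `E = {g = 0}` be an invariant hypersurface, `g ∘ f = g A`, such that the number of
visits of an orbit in `E` to `{A = 0}` (the residual divisor of `Φ^*E - E`) is bounded. Let `V` be a
closed subset of `ℙ^N` (for example a curve) which meets `E` in finitely many points, such that no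
critical periodic point is on the forward orbit of a point of `V ∩ E`. Then for every algebraic point
`α` the return set `{n : Φ^n(α) ∈ V}` is either a finite union of arithmetic progressions or very
sparse: for some `C` it has at most `M` elements between `n` and `2 n - C`, for all `n`, where `M`
depends on `V` only. If the points of `V ∩ E` are preperiodic then the return set is a finite union of
arithmetic progressions. If `V` is defined over the algebraic numbers then all this holds for all
points `α` over `ℂ`.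

**Second part.** Let `E` be a periodic curve in `ℙ^2`, `g ∘ f^l = g A`, such that `E` meets `{A = 0}` in
finitely many points (that is, no component of `E` is critical for `Φ^l`), and such that no cycle
of `Φ` which meets `E` contains a critical point. Let `V` be a closed subset of `ℙ^2` which meets `E` in
finitely many points. Then for all `α` as above the return set is the union of a finite union of
arithmetic progressions and of a sparse set (with at most `M` elements between `n` and `2 n - C`),
and it is a finite union of arithmetic progressions if the points of `V ∩ E` are preperiodic.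

**Third part.** The same for all closed `V` which do not contain `L`, if `L` is a periodic line which
contains a point that is not critical for `Φ^l`, and no cycle of `Φ` which meets `L` contains a critical
point. There is no condition on the critical points outside `L`, and the orbits of the critical points
on `L` may be infinite.

The proof. Let `α` be algebraic and not preperiodic. Outside `{A = 0}` the distance to `E` at a place
changes only by a bounded factor in each step, and the orbits in `E` visit `{A = 0}` a bounded number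
of times, while the heights grow exponentially. So (product formula) at least a positive proportion of
the height of `Φ^n(α)` comes from the closeness to `E` at the places outside a finite set. If
`Φ^n(α) ∈ V` then it is near to a point `Q_i` of `V ∩ E` at these places (effective Nullstellensatz
with constants). If one of these `Q_i` is preperiodic then its cycle has no critical points and
`p`-adic interpolation applies to the orbit of `α`. Otherwise, if `Φ^(n+k)(α) ∈ V`, then `Φ^k(Q_i)` is
at these places near to some `Q_j`, and so the height of `Φ^k(Q_i)` is at least a positive proportion of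
that of `Φ^n(α)`, hence `k ≥ n - C`, unless `Φ^k(Q_i) = Q_j`, and this happens for at most `R^2` numbers
`k`. A cycle on `E` without critical points does not meet `{A = 0}`, by comparison of the orders of
vanishing of `g` and of `g ∘ f^q`; so the number of visits is bounded in the second and third part. If
`α` is not algebraic then an embedding of `ℂ` into the algebraic closure of `ℚ_p` moves `Φ^n(α)` near
to one of the points of `V ∩ E` to which it specializes.
-/

set_option autoImplicit false

open MvPolynomial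

namespace Pool.Agent.Results.MP_b15c9e_ag.PeriodicCurves

/-- The self-map of `ℂ^{N+1}` given by `N + 1` polynomials. -/
noncomputable def coneMap {N : ℕ} (f : Fin (N + 1) → MvPolynomial (Fin (N + 1)) ℂ)
    (x : Fin (N + 1) → ℂ) : Fin (N + 1) → ℂ :=
  fun i => eval x (f i)

/-- The return set of the point `[z]` to the closed set of the common zeros of the members of `S`. -/
def returnSet {N : ℕ} (f : Fin (N + 1) → MvPolynomial (Fin (N + 1)) ℂ)
    (S : Set (MvPolynomial (Fin (N + 1)) ℂ)) (z : Fin (N + 1) → ℂ) : Set ℕ :=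
  {n | ∀ g ∈ S, eval ((coneMap f)^[n] z) g = 0}

/-- A finite union of arithmetic progressions `{a + k n}`, where `k = 0` is allowed. -/
def FiniteUnionAP (A : Set ℕ) : Prop :=
  ∃ T : Finset (ℕ × ℕ), A = {n : ℕ | ∃ q ∈ T, ∃ m : ℕ, n = q.1 * m + q.2}

/-- For some `C` and all `n` there are at most `M` elements between `n` and `2 n - C`. -/
def Sparse (M : ℕ) (A : Set ℕ) : Prop :=
  ∃ C : ℕ, ∀ n, {m | m ∈ A ∧ n ≤ m ∧ m + C < 2 * n}.ncard ≤ M

/-- The forms `f_i` are homogeneous of degree `d` and their only common zero is `0`, so that they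
define an endomorphism of projective space; their coefficients are algebraic numbers. -/
def IsAlgebraicEndomorphism {N : ℕ} (d : ℕ) (f : Fin (N + 1) → MvPolynomial (Fin (N + 1)) ℂ) :
    Prop :=
  (∀ i, (f i).IsHomogeneous d) ∧ (∀ i κ, IsAlgebraic ℚ ((f i).coeff κ)) ∧
  ∀ x : Fin (N + 1) → ℂ, (∀ i, eval x (f i) = 0) → x = 0

/-- A form of degree `e` with algebraic coefficients. -/
def IsAlgebraicForm {N : ℕ} (e : ℕ) (g : MvPolynomial (Fin (N + 1)) ℂ) : Prop :=
  g.IsHomogeneous e ∧ ∀ κ, IsAlgebraic ℚ (g.coeff κ)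

/-- The closed subset of projective space given by a set of forms (as a set of nonzero vectors). -/
def zeroSet {N : ℕ} (S : Set (MvPolynomial (Fin (N + 1)) ℂ)) : Set (Fin (N + 1) → ℂ) :=
  {x | x ≠ 0 ∧ ∀ g ∈ S, eval x g = 0}

/-- The vectors in `U` are in finitely many lines through `0`: `U` is a finite set of points of the
projective space. -/
def FinitelyManyPoints {N : ℕ} (U : Set (Fin (N + 1) → ℂ)) : Prop :=
  ∃ T : Finset (Fin (N + 1) → ℂ), ∀ z ∈ U, ∃ w ∈ T, ∃ a : ℂ, a ≠ 0 ∧ z = a • w

/-- The critical locus: the zeros of the Jacobian determinant. -/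
def critical {N : ℕ} (f : Fin (N + 1) → MvPolynomial (Fin (N + 1)) ℂ) : Set (Fin (N + 1) → ℂ) :=
  {x | (Matrix.of fun i j => eval x (pderiv j (f i))).det = 0}

/-- The point `[z]` is preperiodic. -/
def Preperiodic {N : ℕ} (f : Fin (N + 1) → MvPolynomial (Fin (N + 1)) ℂ)
    (z : Fin (N + 1) → ℂ) : Prop :=
  ∃ n q : ℕ, 0 < q ∧ ∃ c : ℂ, c ≠ 0 ∧ (coneMap f)^[n + q] z = c • (coneMap f)^[n] z

/-- The point `[z]` is periodic. -/
def Periodic {N : ℕ} (f : Fin (N + 1) → MvPolynomial (Fin (N + 1)) ℂ)
    (z : Fin (N + 1) → ℂ) : Prop :=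
  ∃ q : ℕ, 0 < q ∧ ∃ c : ℂ, c ≠ 0 ∧ (coneMap f)^[q] z = c • z

/-- The point `[z]` has algebraic coordinates. -/
def AlgebraicPoint {N : ℕ} (z : Fin (N + 1) → ℂ) : Prop :=
  ∃ a : ℂ, a ≠ 0 ∧ ∀ i, IsAlgebraic ℚ (a * z i)

/-- The equations have algebraic coefficients. -/
def AlgebraicEquations {N : ℕ} (S : Set (MvPolynomial (Fin (N + 1)) ℂ)) : Prop :=
  ∀ q ∈ S, ∀ κ, IsAlgebraic ℚ (q.coeff κ)

open Pool.Agent.T6.H91.DML Pool.Agent.R847.PC in
/-- **Return sets for endomorphisms with a periodic curve or hypersurface without critical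
cycles.** -/
theorem result :
    (∀ (N d e r : ℕ), 2 ≤ d → 1 ≤ e → ∀ f : Fin (N + 1) → MvPolynomial (Fin (N + 1)) ℂ,
      IsAlgebraicEndomorphism d f →
      ∀ g A : MvPolynomial (Fin (N + 1)) ℂ, IsAlgebraicForm e g →
      IsAlgebraicForm (e * (d - 1)) A →
      (∀ z, eval (coneMap f z) g = eval z g * eval z A) →
      (∀ z ∈ zeroSet {g}, ∀ P : Finset ℕ, (∀ t ∈ P, eval ((coneMap f)^[t] z) A = 0) →
        P.card ≤ r) →
      ∀ S : Set (MvPolynomial (Fin (N + 1)) ℂ), (∀ q ∈ S, ∃ e : ℕ, q.IsHomogeneous e) →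
      FinitelyManyPoints (zeroSet S ∩ zeroSet {g}) →
      (∀ z ∈ zeroSet S ∩ zeroSet {g}, ∀ n, Periodic f ((coneMap f)^[n] z) →
        (coneMap f)^[n] z ∉ critical f) →
      ∃ M : ℕ, ∀ z : Fin (N + 1) → ℂ, z ≠ 0 → (AlgebraicPoint z ∨ AlgebraicEquations S) →
        (FiniteUnionAP (returnSet f S z) ∨ Sparse M (returnSet f S z)) ∧
        ((∀ w ∈ zeroSet S ∩ zeroSet {g}, Preperiodic f w) → FiniteUnionAP (returnSet f S z))) ∧
    (∀ (d e l : ℕ), 2 ≤ d → 1 ≤ e → 1 ≤ l → ∀ f : Fin (2 + 1) → MvPolynomial (Fin (2 + 1)) ℂ,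
      IsAlgebraicEndomorphism d f →
      ∀ g A : MvPolynomial (Fin (2 + 1)) ℂ, g ≠ 0 → IsAlgebraicForm e g →
      IsAlgebraicForm (e * (d ^ l - 1)) A →
      (∀ z, eval ((coneMap f)^[l] z) g = eval z g * eval z A) →
      FinitelyManyPoints (zeroSet {g, A}) →
      (∀ z ∈ zeroSet {g}, Periodic f z → ∀ i, (coneMap f)^[i] z ∉ critical f) →
      ∀ S : Set (MvPolynomial (Fin (2 + 1)) ℂ), (∀ q ∈ S, ∃ e : ℕ, q.IsHomogeneous e) →
      FinitelyManyPoints (zeroSet S ∩ zeroSet {g}) →
      ∃ M : ℕ, ∀ z : Fin (2 + 1) → ℂ, z ≠ 0 → (AlgebraicPoint z ∨ AlgebraicEquations S) →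
        (∃ R₁ R₂ : Set ℕ, returnSet f S z = R₁ ∪ R₂ ∧ FiniteUnionAP R₁ ∧ Sparse M R₂) ∧
        ((∀ w ∈ zeroSet S ∩ zeroSet {g}, Preperiodic f w) → FiniteUnionAP (returnSet f S z))) ∧
    (∀ (d l : ℕ), 2 ≤ d → 1 ≤ l → ∀ f : Fin (2 + 1) → MvPolynomial (Fin (2 + 1)) ℂ,
      IsAlgebraicEndomorphism d f →
      ∀ c : Fin (2 + 1) → ℂ, c ≠ 0 → (∀ i, IsAlgebraic ℚ (c i)) →
      ∀ L : Set (Fin (2 + 1) → ℂ), L = {z | z ≠ 0 ∧ ∑ i, c i * z i = 0} →
      (∀ z ∈ L, (coneMap f)^[l] z ∈ L) →
      (∃ z ∈ L, ∀ i < l, (coneMap f)^[i] z ∉ critical f) →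
      (∀ z ∈ L, Periodic f z → ∀ i, (coneMap f)^[i] z ∉ critical f) →
      ∀ S : Set (MvPolynomial (Fin (2 + 1)) ℂ), (∀ q ∈ S, ∃ e : ℕ, q.IsHomogeneous e) →
      ¬ L ⊆ zeroSet S →
      ∃ M : ℕ, ∀ z : Fin (2 + 1) → ℂ, z ≠ 0 → (AlgebraicPoint z ∨ AlgebraicEquations S) →
        (∃ R₁ R₂ : Set ℕ, returnSet f S z = R₁ ∪ R₂ ∧ FiniteUnionAP R₁ ∧ Sparse M R₂) ∧
        ((∀ w ∈ zeroSet S ∩ L, Preperiodic f w) → FiniteUnionAP (returnSet f S z))) := by
  classical
  refine ⟨?_, ?_, ?_⟩
  · intro N d e r hd he f hf g A hg hA hgA hvis S hS hfin hgood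
    obtain ⟨hf1, hf2, hf3⟩ := hf
    obtain ⟨T, hT⟩ := hfin
    have hmem : ∀ z : Fin (N + 1) → ℂ, z ≠ 0 → eval z g = 0 → (∀ P ∈ S, eval z P = 0) →
        z ∈ zeroSet S ∩ zeroSet {g} := fun z hz hgz hSz =>
      ⟨⟨hz, hSz⟩, hz, fun q hq => by
        rw [Set.mem_singleton_iff.1 hq]
        exact hgz⟩
    refine ⟨T.card ^ 2 + 1, fun z hz h => ?_⟩
    have key := dich_all (r := r + 1) hd he f hf1 hf2 hf3 g A hg.1 hg.2 S hS T
      (fun w hw hgw hSw => hT w (hmem w hw hgw hSw)) z hz h hA.1 hA.2 (by
        apply MvPolynomial.funext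
        intro w
        rw [eval_bind, map_mul]
        exact hgA w) (fun w hw hgw P hP => by
        by_contra hno
        push Not at hno
        have := hvis w ⟨hw, fun q hq => by
          rw [Set.mem_singleton_iff.1 hq]
          exact hgw⟩ P hno
        omega) (fun w hw hgw hSw n hper => hgood w (hmem w hw hgw hSw) n hper)
    exact ⟨key.1, fun hprep => key.2 fun w hw hgw hSw => hprep w (hmem w hw hgw hSw)⟩
  · intro d e l hd he hl f hf g A hg0 hg hA hgA hfinA hnc S hS hfin
    obtain ⟨hf1, hf2, hf3⟩ := hf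
    obtain ⟨T, hT⟩ := hfin
    obtain ⟨F0, hF0⟩ := hfinA
    have hmem : ∀ z : Fin (2 + 1) → ℂ, z ≠ 0 → eval z g = 0 → (∀ P ∈ S, eval z P = 0) →
        z ∈ zeroSet S ∩ zeroSet {g} := fun z hz hgz hSz =>
      ⟨⟨hz, hSz⟩, hz, fun q hq => by
        rw [Set.mem_singleton_iff.1 hq]
        exact hgz⟩
    refine ⟨l * (T.card ^ 2 + 1), fun z hz h => ?_⟩
    have key := curve_iter (N := 2) hd he hl f hf1 hf2 hf3 g A hg.1 hg0 hg.2 hA.1 hA.2 (by
        apply MvPolynomial.funext
        intro w
        rw [eval_bind, map_mul, ← hgA w]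
        congr 2
        funext i
        exact eval_itp (N := 2) f l w i) F0 (fun w hw hgw hAw => hF0 w ⟨hw, fun q hq => by
          rcases Set.mem_insert_iff.1 hq with rfl | hq
          · exact hgw
          · rw [Set.mem_singleton_iff.1 hq]
            exact hAw⟩) (fun w hw hgw hper => hnc w ⟨hw, fun q hq => by
          rw [Set.mem_singleton_iff.1 hq]
          exact hgw⟩ hper) S hS T (fun w hw hgw hSw => hT w (hmem w hw hgw hSw)) z hz h
    exact ⟨key.1, fun hprep => key.2 fun w hw hgw hSw => hprep w (hmem w hw hgw hSw)⟩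
  · intro d l hd hl f hf c hc hca L hL hinv hex hnc S hS hVL
    obtain ⟨hf1, hf2, hf3⟩ := hf
    have hmemL : ∀ z, z ∈ L ↔ z ≠ 0 ∧ ∑ i, c i * z i = 0 := by
      intro z
      rw [hL]
      rfl
    obtain ⟨z1, hz1, hz1c⟩ := hex
    rw [hmemL] at hz1
    obtain ⟨z2, hz2, hz2S⟩ := Set.not_subset.1 hVL
    rw [hmemL] at hz2
    have hP2 : ∃ P2 ∈ S, eval z2 P2 ≠ 0 := by
      by_contra hno
      push Not at hno
      exact hz2S ⟨hz2.1, hno⟩
    obtain ⟨P2, hP2, hz2P⟩ := hP2
    obtain ⟨M, hM⟩ := line_iter hd f hf1 hf2 hf3 c hc hca l hl (fun z hz => by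
        by_cases hz0 : z = 0
        · rw [hz0]
          have h0 : ∀ n, (Pool.Agent.H936R2.pt f)^[n] (0 : Fin 3 → ℂ) = 0 := by
            intro n
            induction n with
            | zero => rfl
            | succ n ih =>
              rw [Function.iterate_succ_apply', ih]
              funext i
              have h1 := Pool.Agent.R847.QP.hom_scale (f i) d (hf1 i) 0 0
              rw [zero_smul, zero_pow (by omega), zero_mul] at h1
              exact h1
          rw [h0]
          simp
        · exact ((hmemL _).1 (hinv z ((hmemL z).2 ⟨hz0, hz⟩))).2) z1 hz1.1 hz1.2 hz1c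
      (fun z hz hcz hper => hnc z ((hmemL z).2 ⟨hz, hcz⟩) hper) S hS z2 hz2.1 hz2.2 P2 hP2 hz2P
    refine ⟨M, fun z hz h => ?_⟩
    have key := hM z hz h
    exact ⟨key.1, fun hprep => key.2 fun w hw hcw hSw =>
      hprep w ⟨⟨hw, hSw⟩, (hmemL w).2 ⟨hw, hcw⟩⟩⟩

end Pool.Agent.Results.MP_b15c9e_ag.PeriodicCurves
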